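import Pool.Agent.Run7.h546.FP.Main

/-!
# The noncommutative Künneth conjecture from a filtration of the even or the odd part

`C` is a `ℚ`-linear rigid symmetric monoidal category in which the endomorphisms of the unit object
are the rational numbers, for example the category `NChow(k)_ℚ` of noncommutative Chow motives over a
field `k` of characteristic zero, and `R` is a symmetric monoidal additive functor to finite
dimensional super vector spaces over a field `K`, for example `HP^±`. Choose a sign `ε`: the even or the
odd part. For a noncommutative motive `M` let `R^ε(M)` be this part of `R(M)`.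

**Admissible pairs.** The pair `(X, X')` is admissible if every `f : X → X'` with `Tr(δ f) = 0` for all
`δ : X' → X` which kill `R^(-ε)(X')` is zero on `R^ε(X)`. This is the case if numerically trivial
morphisms from `X` to `X'` are zero on `R^ε(X)`, and `C_NC` holds for one of `X`, `X'` (part 3).

**Theorem.** (1) If `R^ε(M)` has a filtration `0 = F_0 ⊂ F_1 ⊂ ... ⊂ F_n = R^ε(M)` by subspaces which are
stable under all endomorphisms of `M`, such that each graded piece `F_(t+1) / F_t` is generated by a
set `𝒮_t` and detected by a set `𝒮'_t` of objects, with admissible pairs `(X, X')` for `X` in `𝒮_t` and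
`X'` in `𝒮'_t`, then the Künneth projectors of `M` are algebraic: `C_NC(M)`. Nothing is assumed about
pairs which belong to different steps, and nothing about the other part of `R(M)`.

(2) Two steps, a noncommutative weak Lefschetz principle: let `𝒮` and `𝒯` be sets of objects with
admissible pairs `(X, M)` and `(M, Z)` for `X` in `𝒮`, `Z` in `𝒯`. If every class in `R^ε(M)` which is
killed by all morphisms to objects in `𝒯` is a combination of images of classes under morphisms from
objects in `𝒮`, then `C_NC(M)` holds. For example, let `Φ : A → B` be a functor with adjoint `Ψ`, such
that on one part, even or odd, of periodic cyclic homology the kernel of `Ψ` is contained in the image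
of `Φ`. Then `C_NC(A)` implies `C_NC(B)` if numerically trivial correspondences between `A` and `B` act as
zero on this part. For `perf` of a smooth hyperplane section `A` of a smooth projective variety `B` of
dimension `d`, and the part of parity opposite to the parity of `d`, the condition on the kernel is true
by the weak Lefschetz theorem: the kernel of `i^*` is in the degrees `≥ d`, and above the degree `d` all
classes are in the image of `i_*`.

(4) If numerically trivial endomorphisms of `M` are zero on `R^ε(M)` then `C_NC(M)` is equivalent to the
admissibility of `(M, M)`.

The starting point is helper43's theorem `GeneratedParity` (on the problem about `C^+`), which is the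
case `n = 1` of (1): the whole part is generated by `𝒮` and detected by `𝒮'`, with `C_NC` for `𝒮`.

The proof. For an admissible step consider the compositions `b : M → X' → X → M` such that the map in
the middle kills `R^(-ε)(X')`. The form `(b, b') ↦ Tr(b b')` on their span has finite rank and rational
values, and elements of the radical satisfy `b³ = 0` in `R`, so they have trace zero. Therefore there
is `e` in this span with `Tr(e b) = Tr(b)` for all `b`, and for `y ∈ R^ε(M)` generated by `𝒮` the class
`e y - y` is killed by all morphisms to objects in `𝒮'`. So `1 - e` is the identity on `R^(-ε)(M)` and maps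
`F_(t+1)` to `F_t`. The composition of all these is the projector to `R^(-ε)(M)`.
-/

set_option autoImplicit false

open CategoryTheory Limits MonoidalCategory

namespace Pool.Agent.Results.MP_eadf0f_ag.FilteredParity

open Pool.Agent.Y112.SR Pool.Agent.Y112.KD Pool.Agent.R484.NC Run7.h43.NC Pool.Agent.Run7.h546.FP

universe v u w

/-- **The noncommutative Künneth conjecture from a filtration of one part.** -/
theorem result {C : Type u} [Category.{v} C] [Preadditive C] [Linear ℚ C] [MonoidalCategory C]
    [MonoidalPreadditive C] [MonoidalLinear ℚ C] [SymmetricCategory C] [RightRigidCategory C]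
    (hU : UnitQ C) {K : Type w} [Field K] (R : SuperRealisation C K) (ε : K)
    (hε : ε = 1 ∨ ε = -1) (M : C) :
    (∀ n F, IsFiltration hU R ε M n F → R.CPlus M) ∧
    (∀ 𝒮 𝒯 : Set C, (∀ X ∈ 𝒮, Admissible hU R ε X M) → (∀ Z ∈ 𝒯, Admissible hU R ε M Z) →
      (∀ y, InPart R ε M y → KilledBy R 𝒯 M y → y ∈ generated R 𝒮 M) → R.CPlus M) ∧
    (∀ X X' : C, R.CPlus X ∨ R.CPlus X' → HomNum hU R ε X X' → Admissible hU R ε X X') ∧
    (HomNum hU R ε M M → (R.CPlus M ↔ Admissible hU R ε M M)) :=
  ⟨fun _ _ hF => cplus_of_filtration hU hε hF, fun _ _ hS hT h => cplus_of_two hU hε hS hT h,
    fun _ _ h hD => admissible_of hU hε h hD, cplus_iff_admissible hU hε⟩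

end Pool.Agent.Results.MP_eadf0f_ag.FilteredParity
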