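import Pool.Agent.Run7.h301.SL.Excl
import Pool.Agent.Run7.h301.SL.Field

/-!
# Indecomposable noncommutative motives and the noncommutative Künneth conjecture

`C` is a `ℚ`-linear rigid symmetric monoidal category, for example the category `NChow(k)_F` of
noncommutative Chow motives with coefficients in a field `F` of characteristic zero, and `R` is a
symmetric monoidal additive functor to finite dimensional super vector spaces over a field `K`, for
example `HP^±` with `K = k` if `F ⊆ k` and `K = F` if `k ⊆ F`. In both cases `R` is linear along the
inclusion of `F` in `K`, and the endomorphisms of the unit object are the elements of `F`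
(`Coefficients F R`). Then `C_NC(A)` is `CPlus` for `M = U(A)`: the parity of `R(M)`, or equivalently
its even projector, is the realisation of an endomorphism of `M`.

A direct summand of `M` (coefficients in `K`) is the image of an idempotent `K`-combination of
realisations of endomorphisms of `M`; it has an even part and an odd part, of dimensions `a₀` and
`a₁`. It is even if `a₁ = 0` and odd if `a₀ = 0`.

**The criterion.** `C_NC(M)` holds if and only if each indecomposable direct summand of `M` is even or
odd.

**The ratio law.** Let `M'` and `N'` be indecomposable direct summands of `M` and `N`, with dimensions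
`(a₀, a₁)` and `(b₀, b₁)`. If `M' ⊗ N'` has an even direct summand, not zero, then `a₀ ≠ a₁` and
`a₀ b₁ = b₀ a₁`. If it has an odd one, then `a₀ ≠ a₁` and `a₀ b₀ = a₁ b₁`. Hence it never has both,
`M' ⊗ M'` has no odd direct summand, and if `a₀ = a₁`, no `M' ⊗ N'` has an even or an odd one. So an
indecomposable `M'` with `a₀, a₁ > 0`, that is, a counterexample, has a rigid behaviour: if the tensor
product of `M'` and `N'` has a direct summand of pure parity, then `N'` is a counterexample too, and
its ratio is the one of `M'` or the inverse one.

**One half suffices.** Let `b(M)` be the dimension of `R(M)` and `c(M)` the dimension of the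
realisation of the largest direct summand of `M` which is the sum of an even and an odd one. Then
`c(M ⊗ N) ≤ c(M) c(N) + κ (b(M) - c(M)) (b(N) - c(N))`, `κ = 1 - 2 (b(M) - 1) / b(M)^2`. If `C_NC(M)`
is false, then for each `η > θ(b(M))`, where `θ(b) = (b^2 - 2 b + 2) / (2 b^2 - 2 b + 2) < 1 / 2`,
there are infinitely many `n` such that `c(M^n) < η b(M)^n`. So `C_NC(M)` holds if and only if
`c(M^n) ≥ b(M^n) / 2` for all large `n`, and `C_NC` holds for all objects if and only if
`c(M) ≥ b(M) / 2` for all objects.
-/

set_option autoImplicit false

open CategoryTheory Limits MonoidalCategory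

namespace Pool.Agent.Results.MP_eadf0f_ag.IndecomposableRatios

open Pool.Agent.Y112.SR Pool.Agent.Y112.KD Pool.Agent.R484.NC Pool.Agent.Run7.h301.SL

universe v u w x

/-- **Indecomposable summands, the ratio law and one half, for the noncommutative Künneth conjecture
with coefficients in a field `F` of characteristic zero.** -/
theorem result {C : Type u} [Category.{v} C] [Preadditive C] [Linear ℚ C] [MonoidalCategory C]
    [SymmetricCategory C] [RightRigidCategory C] {K : Type w} [Field K]
    {F : Type x} [Field F] [Linear F C] [Algebra F K]
    (R : SuperRealisation C K) (hR : Coefficients F R) :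
    SignIffIndec R ∧ Ratios R ∧ NotBoth R ∧ NoOddInSquare R ∧ NoneIfBalanced R ∧
    (∀ M N : C, SharpBound R M N) ∧ (∀ M : C, ¬ R.CPlus M → BelowTheta R M) ∧
    (∀ b : ℕ, 2 ≤ b → theta b < 1 / 2) ∧ OneHalf R := by
  have hD := descends_of_coefficients R hR
  exact ⟨signIffIndec R hD, ratios R, notBoth R, noOddInSquare R, noneIfBalanced R, sharpBound R,
    fun M hC => belowTheta hD hC, fun b hb => theta_lt hb, cplus_iff_half hD, all_iff_half hD⟩

end Pool.Agent.Results.MP_eadf0f_ag.IndecomposableRatios
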