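import Pool.Agent.Run7.h43.CP.Main

/-!
# The noncommutative Kunneth conjecture in characteristic `p`: all base and coefficient fields

The problem allows every base field `k` and every coefficient field `F` with `F ⊇ k` or `F ⊆ k`. Let `k` be
a perfect field of characteristic `p > 0` (for instance finite or algebraically closed), `A` a saturated dg
category over `k`, `Λ = K_0(A^op ⊗ A)`. The topological periodic cyclic homology `TP_i(A)`, `i ∈ ℤ/2`, is a
finitely generated module over the ring `W(k)` of Witt vectors; it is an integral lift of `HP(A)`: there are
exact sequences `0 → TP_i(A)/p → HP_i(A) → TP_(i-1)(A)[p] → 0`.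

**(1)** For every coefficient field `F` the conjecture `C_NC(A)` is equivalent to each of the following:

* ONE correspondence in `K_0(A^op ⊗ A)`, without any coefficients, acts as `π⁺` on `HP(A)`;
* `TP_0(A)` and `TP_1(A)` are torsion free, and the even projector of `TP(A)` is a combination of
  correspondences with coefficients in `W(k)`;
* `TP_0(A)` and `TP_1(A)` are torsion free, and `N` times the even projector of `TP(A)` is one correspondence
  in `K_0(A^op ⊗ A)`, for some integer `N` prime to `p`.

So the conjecture does not depend on `F`, and it is a `p`-integral form of the sign conjecture for `TP`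
together with the absence of torsion.

**(2)** If the conjecture holds for `A`, then `dim HP_i(A) = rank TP_i(A)` for both `i`.

**(3)** The conjecture fails for all coefficient fields, and over every base field `k₀` of characteristic `p`
(perfect or not; `k` is a perfect extension field of `k₀`), for the surfaces `X = (B' × C) / G`, where the
finite `p`-group `G` acts freely on the curve `B'` and acts with a fixed point on the curve `C` of positive
genus, with `C / G` the projective line.

Such surfaces exist over the prime field (so over every field of characteristic `p`, including `2`): let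
`B'` be an elliptic curve over `F_p` with exactly `p` rational points, `G = B'(F_p)`, and `C` the curve
`y^p - y = x^m`, `m ≥ 2` prime to `p` (`m ≥ 3` for `p = 2`), on which `1 ∈ ℤ/p` acts by `y ↦ y + 1`. By (2) the
conjecture also fails for all smooth projective surfaces with `h^1_dR ≠ b_1`, for instance the quotients
of complete intersections by free actions of `ℤ/p` (Godeaux, Serre): there `H^1_dR ≠ 0` and `b_1 = 0`.
The starting theorem `CurvesInPositiveCharacteristic` has a failure over fields of characteristic `p > 2`
with a discrete valuation, by curves without zero-cycles of degree prime to `p`; there are no such curves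
over finite or algebraically closed fields.

The proof. Let the combination `∑ c_j x_j` act as `π⁺` on `HP`, and lift the `c_j` to `W(k)`. The operator `φ`
of the lift is the identity modulo `p` on `TP_0`, so bijective by Nakayama's lemma; but it is zero on
`TP_0[p]`, a quotient of `HP_1`. So `TP_0` is torsion free; `TP_1` in the same way, with `1 - φ`. Now the
characteristic polynomials of `φ` on `TP_0` and `TP_1` are coprime over `W(k)`, so `π⁺` is a polynomial in
`φ`. The supertraces of the correspondences on `TP` are integers. By the descent theorem of the starting
directory `TH133/PW` a nonzero multiple of `π⁺` is in `K_0`. The group `K_0` modulo the numerically trivial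
elements is free of finite rank; comparison of the coordinates of `π⁺` in `W(k)` and in the rational numbers
gives `N π⁺ - ν` in `K_0`, with `N` prime to `p` and `ν` a combination of numerically trivial elements, which
is nilpotent; and a power of `N` times `π⁺` is a polynomial with integral coefficients in this element.
-/

set_option autoImplicit false

open scoped TensorProduct

namespace Pool.Agent.Results.MP_eadf0f_ag.PositiveCharacteristic

open Run7.h43.CP Run7.h43.CP.Periodic

universe u v w x y

/-- **The noncommutative Kunneth conjecture in characteristic `p`.** `A : Periodic p r Λ` consists of the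
groups `HP_i(A)`, `TP_i(A)` of a saturated dg category `A` over the perfect field `k` of characteristic `p`
with the actions of `Λ = K_0(A^op ⊗ A)` and their known properties; `A.HP.Conjecture F E` is the conjecture
`C_NC(A)` with coefficients in `F`, where `E` is a common extension field of `F` and `k`. In (3) `A` is
`perf(X)` for a surface `X` over `k` with the known properties `IsQuotientSurface`, and `H₀` is the periodic
cyclic homology of `perf(X₀)`, where `X₀` is a form of `X` over a subfield `k₀` of `k` (for instance
`k₀ = k`). -/
theorem result (p : ℕ) [Fact p.Prime] (k : Type u) [Field k] [CharP k p] [PerfectRing k p]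
    (Λ : Type v) [Ring Λ] (A : Periodic.{u, u, v, w} p
      (WittVector.constantCoeff : WittVector p k →+* k) Λ) :
    (∀ (F : Type x) (E : Type y) [Field F] [Field E] [Algebra F E] [Algebra k E],
      [A.HP.Conjecture F E, A.HP.Realised, A.TP.TorsionFree ∧ A.TP.WittCombination,
        A.TP.TorsionFree ∧ A.TP.IntegralMultiple p].TFAE) ∧
    (A.HP.Realised → ∀ i, Module.finrank k (A.HP.M i) =
      Module.finrank (WittVector p k) (A.TP.M i)) ∧
    (∀ (g : ℕ) (G : Type x) (V : Type y) [Group G] [Finite G] [AddCommGroup V] [Module k V]
      [Module.Finite k V] [Nontrivial V] (ρ : Representation k G V), IsPGroup p G →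
      IsQuotientSurface A g ρ → ∀ (k₀ : Type u) [Field k₀] [Algebra k₀ k] (Λ₀ : Type v) [Ring Λ₀]
        (f : Λ₀ →+* Λ) (H₀ : Graded.{u, v, w} k₀ Λ₀), Graded.IsBaseChange f H₀ A.HP →
        ∀ (F : Type x) (E : Type y) [Field F] [Field E] [Algebra F E] [Algebra k₀ E],
          ¬ H₀.Conjecture F E) := by
  have h1 : A.HP.Realised ↔ A.TP.TorsionFree ∧ A.TP.WittCombination := (A.conj_tfae k k).out 1 2
  have h2 : A.HP.Realised → ∀ i, Module.finrank k (A.HP.M i) =
      Module.finrank (WittVector p k) (A.TP.M i) := fun h i => A.finrank_eq (h1.1 h).1 i
  refine ⟨fun F E _ _ _ _ => A.conj_tfae F E, h2, ?_⟩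
  intro g G V _ _ _ _ _ _ ρ hG hX k₀ _ _ Λ₀ _ f H₀ hf F E _ _ _ _ hc
  have h0 : A.HP.Conjecture k k ↔ A.HP.Realised := (A.conj_tfae k k).out 0 1
  have h3 := h2 (h0.1 (Graded.conjecture_of_base hf hc)) 1
  rw [hX.dim, hX.rank] at h3
  obtain ⟨v, hv⟩ := exists_ne (0 : V)
  obtain ⟨w, hw, hw'⟩ := exists_invariant hG ρ hv
  have h4 : Module.finrank k ρ.invariants = 0 := by omega
  rw [Module.finrank_eq_zero_iff_of_free] at h4
  exact hw (congrArg Subtype.val (h4.elim (⟨w, hw'⟩ : ρ.invariants) 0))

end Pool.Agent.Results.MP_eadf0f_ag.PositiveCharacteristic
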