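import Pool.Agent.Run7.h301.SL.Field

/-!
# One half of the noncommutative Künneth conjecture

`C` is a `ℚ`-linear rigid symmetric monoidal category, for example the category `NChow(k)_F` of
noncommutative Chow motives with coefficients in a field `F` of characteristic zero, and `R` is a
symmetric monoidal additive functor to finite dimensional super vector spaces over a field `K`, for
example `HP^±` with `K = k` if `F ⊆ k` and `K = F` if `k ⊆ F`. In both cases `R` is linear along the
inclusion of `F` in `K`, and the endomorphisms of the unit object are the elements of `F`
(`Coefficients F R`). Then `C_NC(A)` is `CPlus` for `M = U(A)`: the parity of `R(M)`, or equivalently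
its even projector, is the realisation of an endomorphism of `M`.

Let `b(M)` be the dimension of `R(M)`, and let `c(M) = splitDim R M` be the dimension of the
realisation of the largest direct summand of `M` (with coefficients in `K`) which is the sum of an
even and an odd one: the largest number `rank e₀ + rank e₁`, where `e₀` and `e₁` are idempotent
`K`-combinations of realisations of endomorphisms of `M`, the image of `e₀` is even and the image
of `e₁` is odd.

**Theorem.** `C_NC(M)` holds if and only if `c(M) = b(M)`. The number `c` is additive for direct sums,
for example for semi-orthogonal decompositions, and for all `M` and `N`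

  `c(M) c(N) ≤ c(M ⊗ N) ≤ c(M) c(N) + (b(M) - c(M)) (b(N) - c(N))`,

so that `c(M ⊗ N) = c(M) b(N)` if `C_NC(N)` holds. If `C_NC(M)` is false, then for all `n`

  `c(M^n) ≤ (b^n + (b - 2)^n) / 2` or `c(M^(n+1)) ≤ (b^(n+1) + (b - 2)^(n+1)) / 2`, where `b = b(M)`.

So `C_NC` for all dg categories is equivalent to 51 percent of it: each `M` has a direct summand of
dimension at least `0.51 b(M)` which is the sum of an even and an odd one. For one `M` it is
equivalent to 51 percent for all large tensor powers of `M`, and the share `1 / 2 + f(b(M^n))`
suffices, if `f(y) y^κ → ∞` for all `κ > 0`, for example `f(y) = 1 / log y`.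

The proof. Call a combination of endomorphisms pure if its image is even or odd. There is a sum
`ε_M` of an even and an odd idempotent such that `1 - ε_M` has trace zero against all pure ones, and
its rank is `c(M)`: if `q` has trace zero against all pure combinations and `e` is the sum of an even
and an odd idempotent, then all powers of `q e` have trace zero, so `q e` is nilpotent and `1 - q` is
injective on the image of `e`. Now `q = ε_M ⊗ (1 - ε_N) + (1 - ε_M) ⊗ ε_N` has trace zero against all
pure combinations on `M ⊗ N`: the partial trace (in the rigid category) of such a combination
against a pure one on one factor is pure. The rank of `1 - q` is the upper bound. The descent of the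
projector from `K` to `F` uses that it is a polynomial in a Casimir element with coefficients in `F`.
-/

set_option autoImplicit false

open CategoryTheory Limits MonoidalCategory

namespace Pool.Agent.Results.MP_eadf0f_ag.ShareLaw

open Pool.Agent.Y112.SR Pool.Agent.R484.NC Pool.Agent.Run7.h301.SL

universe v u w x

/-- **The share law for the noncommutative Künneth conjecture, with coefficients in a field `F` of
characteristic zero.** -/
theorem result {C : Type u} [Category.{v} C] [Preadditive C] [Linear ℚ C] [MonoidalCategory C]
    [SymmetricCategory C] [RightRigidCategory C] {K : Type w} [Field K]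
    {F : Type x} [Field F] [Linear F C] [Algebra F K]
    (R : SuperRealisation C K) (hR : Coefficients F R) :
    (∀ M : C, IsGreatest (splitDims R M) (splitDim R M)) ∧
    (∀ M : C, R.CPlus M ↔ splitDim R M = totalDim R M) ∧
    (∀ M N S : C, IsSum M N S → splitDim R S = splitDim R M + splitDim R N) ∧
    (∀ M N : C, splitDim R M * splitDim R N ≤ splitDim R (M ⊗ N) ∧
      splitDim R (M ⊗ N) ≤ splitDim R M * splitDim R N +
        (totalDim R M - splitDim R M) * (totalDim R N - splitDim R N)) ∧
    (∀ M N : C, R.CPlus N → splitDim R (M ⊗ N) = splitDim R M * totalDim R N) ∧
    (∀ (M : C) (n : ℕ), totalDim R (pow M n) = totalDim R M ^ n) ∧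
    (∀ M : C, ¬ R.CPlus M → ∀ n : ℕ, HalfAt R M n) ∧
    SignIffHalf R ∧ SignFromRate R := by
  have hD := descends_of_coefficients R hR
  exact ⟨isGreatest R, cplus_iff_split hD, fun M N S h => splitDim_sum R h,
    fun M N => splitDim_tensor R M N, fun M N h => splitDim_tensor_of_cplus R h, totalDim_pow R,
    fun M hC n => halfAt hD hC n, signIffHalf hD, signFromRate hD⟩

end Pool.Agent.Results.MP_eadf0f_ag.ShareLaw
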